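import Mathlib

namespace Pool.Agent.Results.MP_4101c8_co.BothFalse

/-- `S` is a total dominating set of `G`. -/
def IsTotalDominating {V : Type} (G : SimpleGraph V) (S : Finset V) : Prop :=
  ∀ v, ∃ u ∈ S, G.Adj v u

/-- The total domination number. -/
noncomputable def gammaT {V : Type} (G : SimpleGraph V) : ℕ :=
  sInf {m | ∃ S : Finset V, IsTotalDominating G S ∧ S.card = m}

/-- `δ*(G)`, the smaller of the minimum degrees of `G` and of its complement. -/
noncomputable def deltaStar {V : Type} [Fintype V] (G : SimpleGraph V) : ℕ :=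
  open Classical in min G.minDegree Gᶜ.minDegree

/-- adjacency between the point `i` and the line `j` in the incidence graph of the complement of
the Fano plane -/
def inc (i j : Fin 7) : Bool := !(j - i = 1 || j - i = 2 || j - i = 4)

/-- adjacency in the bipartite complement of the Heawood graph -/
def adjB (x y : Bool × Fin 7) : Bool :=
  match x.1, y.1 with
  | false, true => inc x.2 y.2
  | true, false => inc y.2 x.2
  | _, _ => false

/-- `k` disjoint copies of the bipartite complement of the Heawood graph -/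
def HG (k : ℕ) : SimpleGraph (Fin k × (Bool × Fin 7)) where
  Adj x y := x.1 = y.1 ∧ adjB x.2 y.2 = true
  symm := ⟨fun x y h => ⟨h.1.symm, by
    have : ∀ a b : Bool × Fin 7, adjB a b = true → adjB b a = true := by decide
    exact this _ _ h.2⟩⟩
  loopless := ⟨fun x h => by
    have : ∀ a : Bool × Fin 7, ¬ adjB a a = true := by decide
    exact this _ h.2⟩

lemma need3 : ∀ (b : Bool) (T : Finset (Fin 7)), T.card ≤ 2 →
    ∃ j : Fin 7, ∀ p ∈ T, ¬ adjB (!b, j) (b, p) = true := by
  decide +kernel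

lemma adjB_side : ∀ (b : Bool) (j : Fin 7) (y : Bool × Fin 7), adjB (!b, j) y = true → y.1 = b := by
  decide

lemma deg4 : ∀ x : Bool × Fin 7, (Finset.univ.filter fun y => adjB x y = true).card = 4 := by
  decide

lemma tds_card {k : ℕ} (S : Finset (Fin k × (Bool × Fin 7)))
    (hS : IsTotalDominating (HG k) S) : 6 * k ≤ S.card := by
  classical
  have h1 := Finset.card_eq_sum_card_fiberwise (s := S) (t := (Finset.univ : Finset (Fin k × Bool)))
    (f := fun v => (v.1, v.2.1)) (fun _ _ => Finset.mem_coe.2 (Finset.mem_univ _))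
  rw [h1]
  have h2 : ∀ cb ∈ (Finset.univ : Finset (Fin k × Bool)),
      3 ≤ (S.filter fun v => (v.1, v.2.1) = cb).card := by
    rintro ⟨c, b⟩ _
    by_contra hlt
    push Not at hlt
    obtain ⟨j, hj⟩ := need3 b ((S.filter fun v => (v.1, v.2.1) = (c, b)).image fun v => v.2.2)
      (le_trans Finset.card_image_le (by omega))
    obtain ⟨u, huS, hu1, hu2⟩ := hS (c, (!b, j))
    have hb := adjB_side b j u.2 hu2
    have hu1 : c = u.1 := hu1
    apply hj u.2.2
    · refine Finset.mem_image.2 ⟨u, Finset.mem_filter.2 ⟨huS, ?_⟩, rfl⟩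
      rw [← hu1, hb]
    · rw [← hb]
      rw [← hb] at hu2
      exact hu2
  have h3 := Finset.card_nsmul_le_sum _ _ _ h2
  rw [Finset.card_univ, Fintype.card_prod, Fintype.card_fin, Fintype.card_bool, smul_eq_mul] at h3
  omega

lemma le_gammaT {V : Type} (G : SimpleGraph V) (m : ℕ)
    (hne : ∃ S : Finset V, IsTotalDominating G S)
    (h : ∀ S : Finset V, IsTotalDominating G S → m ≤ S.card) : m ≤ gammaT G := by
  obtain ⟨S, hS⟩ := hne
  refine le_csInf ⟨_, S, hS, rfl⟩ ?_
  rintro _ ⟨T, hT, rfl⟩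
  exact h T hT

lemma two_le {V : Type} [Nonempty V] (G : SimpleGraph V) (S : Finset V)
    (h : IsTotalDominating G S) : 2 ≤ S.card := by
  obtain ⟨v⟩ := (inferInstance : Nonempty V)
  obtain ⟨u, hu, _⟩ := h v
  obtain ⟨w, hw, huw⟩ := h u
  have : u ≠ w := huw.ne
  exact Finset.one_lt_card.2 ⟨u, hu, w, hw, this⟩

lemma degHG {k : ℕ} (x : Fin k × (Bool × Fin 7)) [Fintype ((HG k).neighborSet x)] :
    (HG k).degree x = 4 := by
  classical
  rw [← SimpleGraph.card_neighborFinset_eq_degree, ← deg4 x.2]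
  refine Finset.card_bij' (fun y _ => y.2) (fun y _ => (x.1, y)) ?_ ?_ ?_ ?_
  · intro y hy
    rw [SimpleGraph.mem_neighborFinset] at hy
    exact Finset.mem_filter.2 ⟨Finset.mem_univ _, hy.2⟩
  · intro y hy
    rw [SimpleGraph.mem_neighborFinset]
    exact ⟨rfl, (Finset.mem_filter.1 hy).2⟩
  · intro y hy
    rw [SimpleGraph.mem_neighborFinset] at hy
    exact Prod.ext hy.1 rfl
  · intro y hy
    rfl

lemma degHG' {k : ℕ} (G' : SimpleGraph (Fin k × (Bool × Fin 7))) (h : G' = HG k)
    (x : Fin k × (Bool × Fin 7)) [Fintype (G'.neighborSet x)] :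
    G'.degree x = 4 := by
  subst h; exact degHG x

theorem result : ∀ N : ℕ, ∃ (n : ℕ) (V : Type) (_ : Fintype V) (G : SimpleGraph V),
    N ≤ n ∧ Fintype.card V = n ∧ G.Connected ∧ deltaStar G = 4 ∧
    (gammaT G + gammaT Gᶜ : ℝ) > 2 * n / 5 + 2 ∧
    (gammaT G * gammaT Gᶜ : ℝ) > 4 * n / 5 := by
  intro N
  classical
  let k := N + 2
  have : Nonempty (Fin k × (Bool × Fin 7)) := ⟨(⟨0, by omega⟩, (false, 0))⟩
  have hcard : Fintype.card (Fin k × (Bool × Fin 7)) = 14 * k := by
    simp [mul_comm]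
  -- no isolated vertices
  have hH : ∃ S, IsTotalDominating (HG k) S := by
    refine ⟨Finset.univ, fun v => ?_⟩
    have h4 : ∃ y, y ∈ (Finset.univ.filter fun y => adjB v.2 y = true) := by
      apply Finset.card_pos.1
      rw [deg4]; norm_num
    obtain ⟨y, hy⟩ := h4
    exact ⟨(v.1, y), Finset.mem_univ _, rfl, (Finset.mem_filter.1 hy).2⟩
  have hother : ∀ c : Fin k, ∃ c' : Fin k, c ≠ c' := by
    intro c
    by_cases h : c = ⟨0, by omega⟩
    · refine ⟨⟨1, by omega⟩, ?_⟩
      rw [h]
      intro h'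
      exact absurd (Fin.mk.inj h') (by norm_num)
    · exact ⟨_, h⟩
  have hadj : ∀ x y : Fin k × (Bool × Fin 7), x.1 ≠ y.1 → (HG k)ᶜ.Adj x y := by
    intro x y h
    rw [SimpleGraph.compl_adj]
    exact ⟨fun e => h (by rw [e]), fun e => h e.1⟩
  have hG : ∃ S, IsTotalDominating (HG k)ᶜ S := by
    refine ⟨Finset.univ, fun v => ?_⟩
    obtain ⟨c', hc'⟩ := hother v.1
    exact ⟨(c', v.2), Finset.mem_univ _, hadj _ _ hc'⟩
  have g1 : 6 * k ≤ gammaT (HG k) := le_gammaT _ _ hH fun S => tds_card S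
  have g2 : 2 ≤ gammaT (HG k)ᶜ := le_gammaT _ _ hG fun S => two_le _ S
  refine ⟨14 * k, _, inferInstance, (HG k)ᶜ, by omega, hcard, ?_, ?_, ?_, ?_⟩
  · -- connected
    rw [SimpleGraph.connected_iff]
    refine ⟨fun x y => ?_, inferInstance⟩
    by_cases h : x.1 = y.1
    · obtain ⟨c', hc'⟩ := hother x.1
      exact (hadj x (c', x.2) hc').reachable.trans
        (hadj (c', x.2) y (fun e => hc' (h.trans e.symm))).reachable
    · exact (hadj x y h).reachable
  · -- minimum degrees
    unfold deltaStar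
    have e1 : ∀ inst : DecidableRel ((HG k)ᶜ)ᶜ.Adj,
        @SimpleGraph.minDegree _ ((HG k)ᶜ)ᶜ _ inst = 4 := by
      intro inst
      apply le_antisymm
      · obtain ⟨v⟩ := this
        refine le_trans (SimpleGraph.minDegree_le_degree _ v) ?_
        exact (degHG' _ (compl_compl _) v).le
      · apply SimpleGraph.le_minDegree_of_forall_le_degree
        intro v
        exact (degHG' _ (compl_compl _) v).ge
    have e2 : ∀ inst : DecidableRel ((HG k)ᶜ).Adj,
        4 ≤ @SimpleGraph.minDegree _ (HG k)ᶜ _ inst := by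
      intro inst
      apply SimpleGraph.le_minDegree_of_forall_le_degree
      intro v
      have h5 : (HG k)ᶜ.degree v = 14 * k - 1 - 4 := by
        rw [← hcard, ← degHG v, ← SimpleGraph.degree_compl]
      rw [h5]
      omega
    rw [e1]
    exact min_eq_right (e2 _)
  · rw [compl_compl]
    have h1 : (6 * k : ℝ) ≤ gammaT (HG k) := by exact_mod_cast g1
    have h2 : (2 : ℝ) ≤ gammaT (HG k)ᶜ := by exact_mod_cast g2
    have hk : (0 : ℝ) < k := by
      have : 0 < k := by omega
      exact_mod_cast this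
    push_cast
    linarith
  · rw [compl_compl]
    have h1 : (6 * k : ℝ) ≤ gammaT (HG k) := by exact_mod_cast g1
    have h2 : (2 : ℝ) ≤ gammaT (HG k)ᶜ := by exact_mod_cast g2
    have hk : (0 : ℝ) < k := by
      have : 0 < k := by omega
      exact_mod_cast this
    push_cast
    have h3 : (2 : ℝ) * (6 * k) ≤ gammaT (HG k)ᶜ * gammaT (HG k) := by
      apply mul_le_mul h2 h1 (by positivity) (by linarith)
    linarith

end Pool.Agent.Results.MP_4101c8_co.BothFalse
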