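import Mathlib

open Set

namespace Pool.Agent.Results.MP_4101c8_co.ComplementCopies

/-- `S` is a total dominating set of `G`: every vertex (including those of `S`) has a neighbour
in `S`. -/
def IsTotalDominating {V : Type} (G : SimpleGraph V) (S : Finset V) : Prop :=
  ∀ v, ∃ s ∈ S, G.Adj v s

/-- the total domination number. -/
noncomputable def totalDom {V : Type} (G : SimpleGraph V) : ℕ :=
  sInf {k | ∃ S : Finset V, IsTotalDominating G S ∧ S.card = k}

open Classical in
/-- `δ*(G) = min (δ(G), δ(Gᶜ))`. -/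
noncomputable def deltaStar {V : Type} [Fintype V] (G : SimpleGraph V) : ℕ :=
  min G.minDegree Gᶜ.minDegree

/-- incidence of the Fano plane -/
def fano (p l : Fin 7) : Bool := decide ((p + l).val = 0 ∨ (p + l).val = 1 ∨ (p + l).val = 3)

/-- adjacency in the bipartite complement of the Heawood graph; `(false, p)` is a point,
`(true, l)` a line; adjacent iff the point is not on the line -/
def hadj (x y : Bool × Fin 7) : Bool := (x.1 != y.1) && !(fano x.2 y.2)

theorem hadj_symm : ∀ x y : Bool × Fin 7, hadj x y = true → hadj y x = true := by decide +kernel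

theorem hadj_irrefl : ∀ x : Bool × Fin 7, ¬ hadj x x = true := by decide +kernel

/-- The graph `k H`: `k` disjoint copies of the bipartite complement of the Heawood graph. -/
def kH (k : ℕ) : SimpleGraph (Fin k × (Bool × Fin 7)) where
  Adj x y := x.1 = y.1 ∧ hadj x.2 y.2 = true
  symm := ⟨fun _ _ h => ⟨h.1.symm, hadj_symm _ _ h.2⟩⟩
  loopless := ⟨fun _ h => hadj_irrefl _ h.2⟩

theorem kH_adj (k : ℕ) (x y : Fin k × (Bool × Fin 7)) :
    (kH k).Adj x y ↔ x.1 = y.1 ∧ hadj x.2 y.2 = true := Iff.rfl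

/-- two vertices never totally dominate one side of `H` -/
theorem two_fail : ∀ (b : Bool) (x y : Bool × Fin 7), ∃ p : Fin 7, hadj (b, p) x = false ∧
    hadj (b, p) y = false := by decide +kernel

theorem deg4 : ∀ x : Bool × Fin 7,
    (Finset.univ.filter (fun y => hadj x y = true)).card = 4 := by decide +kernel

/-- each copy and each side needs three vertices -/
theorem three_le {k : ℕ} {S : Finset (Fin k × (Bool × Fin 7))}
    (hS : IsTotalDominating (kH k) S) (i : Fin k) (b : Bool) :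
    3 ≤ (S.filter (fun s => s.1 = i ∧ s.2.1 = b)).card := by
  classical
  by_contra hlt
  push Not at hlt
  set T := S.filter (fun s => s.1 = i ∧ s.2.1 = b) with hT
  have : Nonempty (Fin k × Bool × Fin 7) := ⟨(i, false, 0)⟩
  -- T ⊆ {x, y}
  obtain ⟨x, y, hxy⟩ : ∃ x y : Bool × Fin 7, ∀ s ∈ T, s.2 = x ∨ s.2 = y := by
    rcases Nat.lt_succ_iff.1 hlt |>.lt_or_eq with h | h
    · have h1 : T.card ≤ 1 := Nat.lt_succ_iff.1 h
      rw [Finset.card_le_one_iff_subset_singleton] at h1
      obtain ⟨x, hx⟩ := h1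
      exact ⟨x.2, x.2, fun s hs => Or.inl (by rw [Finset.mem_singleton.1 (hx hs)])⟩
    · obtain ⟨x, y, -, hxy⟩ := Finset.card_eq_two.1 h
      refine ⟨x.2, y.2, fun s hs => ?_⟩
      rw [hxy, Finset.mem_insert, Finset.mem_singleton] at hs
      rcases hs with h | h
      · exact Or.inl (by rw [h])
      · exact Or.inr (by rw [h])
  obtain ⟨p, hp1, hp2⟩ := two_fail (!b) x y
  obtain ⟨s, hs, hadj'⟩ := hS (i, (!b, p))
  rw [kH_adj] at hadj'
  obtain ⟨h1, h2⟩ := hadj'
  have hsb : s.2.1 = b := by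
    have : ((!b) != s.2.1) = true := by
      have h3 := h2
      simp only [hadj, Bool.and_eq_true] at h3
      exact h3.1
    revert this
    cases b <;> cases s.2.1 <;> simp
  have hsT : s ∈ T := Finset.mem_filter.2 ⟨hs, h1.symm, hsb⟩
  rcases hxy s hsT with h | h
  · rw [h] at h2
    simp only at h2
    rw [hp1] at h2
    exact absurd h2 (by decide)
  · rw [h] at h2
    simp only at h2
    rw [hp2] at h2
    exact absurd h2 (by decide)

theorem six_mul_le {k : ℕ} {S : Finset (Fin k × (Bool × Fin 7))}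
    (hS : IsTotalDominating (kH k) S) : 6 * k ≤ S.card := by
  classical
  have h1 : S.card = ∑ t : Fin k × Bool, (S.filter (fun s => (s.1, s.2.1) = t)).card :=
    Finset.card_eq_sum_card_fiberwise
      (f := fun s : Fin k × (Bool × Fin 7) => (s.1, s.2.1)) (t := Finset.univ)
      (fun _ _ => Finset.mem_coe.2 (Finset.mem_univ _))
  rw [h1]
  have h2 : ∑ _t : Fin k × Bool, 3 ≤
      ∑ t : Fin k × Bool, (S.filter (fun s => (s.1, s.2.1) = t)).card := by
    refine Finset.sum_le_sum fun t _ => ?_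
    have := three_le hS t.1 t.2
    have he : (S.filter (fun s => (s.1, s.2.1) = t)) =
        (S.filter (fun s => s.1 = t.1 ∧ s.2.1 = t.2)) := by
      refine Finset.filter_congr fun s _ => ?_
      rw [Prod.ext_iff]
    rw [he]
    exact this
  refine le_trans ?_ h2
  simp
  omega

theorem totalDom_eq {V : Type} {G : SimpleGraph V} {m : ℕ} {S0 : Finset V}
    (hS0 : IsTotalDominating G S0) (hm : S0.card = m)
    (h : ∀ S : Finset V, IsTotalDominating G S → m ≤ S.card) : totalDom G = m := by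
  apply le_antisymm
  · exact Nat.sInf_le ⟨S0, hS0, hm⟩
  · refine le_csInf ⟨S0.card, S0, hS0, rfl⟩ ?_
    rintro _ ⟨S, hS, rfl⟩
    exact h S hS

theorem three_dom : ∀ (b : Bool) (p : Fin 7), ∃ l : Fin 7, l.val < 3 ∧
    hadj (b, p) (!b, l) = true := by decide +kernel

theorem totalDom_kH (k : ℕ) : totalDom (kH k) = 6 * k := by
  classical
  refine totalDom_eq (S0 := (Finset.univ : Finset (Fin k)) ×ˢ
    ((Finset.univ : Finset Bool) ×ˢ (Finset.univ.filter (fun l : Fin 7 => l.val < 3)))) ?_ ?_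
    (fun S hS => six_mul_le hS)
  · rintro ⟨i, b, p⟩
    obtain ⟨l, hl, hadj'⟩ := three_dom b p
    refine ⟨(i, !b, l), ?_, rfl, hadj'⟩
    simp [hl]
  · rw [Finset.card_product, Finset.card_product]
    have : (Finset.univ.filter (fun l : Fin 7 => l.val < 3)).card = 3 := by decide
    rw [this]
    simp
    omega

theorem totalDom_compl {k : ℕ} (hk : 2 ≤ k) : totalDom (kH k)ᶜ = 2 := by
  classical
  have hne : ((⟨0, by omega⟩ : Fin k), ((false, 0) : Bool × Fin 7)) ≠
      ((⟨1, by omega⟩ : Fin k), ((false, 0) : Bool × Fin 7)) := by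
    intro h
    simp [Prod.ext_iff] at h
  refine totalDom_eq (S0 := {((⟨0, by omega⟩ : Fin k), ((false, 0) : Bool × Fin 7)),
    ((⟨1, by omega⟩ : Fin k), ((false, 0) : Bool × Fin 7))}) ?_ (Finset.card_pair hne) ?_
  · rintro ⟨i, x⟩
    by_cases hi : i = ⟨0, by omega⟩
    · refine ⟨((⟨1, by omega⟩ : Fin k), ((false, 0) : Bool × Fin 7)), by simp, ?_⟩
      rw [SimpleGraph.compl_adj, kH_adj]
      subst hi
      simp
    · refine ⟨((⟨0, by omega⟩ : Fin k), ((false, 0) : Bool × Fin 7)), by simp, ?_⟩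
      rw [SimpleGraph.compl_adj, kH_adj]
      refine ⟨fun h => hi (congrArg Prod.fst h), fun h => hi h.1⟩
  · intro S hS
    obtain ⟨s, hs, -⟩ := hS ((⟨0, by omega⟩ : Fin k), ((false, 0) : Bool × Fin 7))
    obtain ⟨t, ht, hst⟩ := hS s
    exact Finset.one_lt_card.2 ⟨s, hs, t, ht, hst.ne⟩

theorem kH_degree (k : ℕ) (x : Fin k × (Bool × Fin 7)) [Fintype ((kH k).neighborSet x)] :
    (kH k).degree x = 4 := by
  classical
  rw [← SimpleGraph.card_neighborFinset_eq_degree]
  have : (kH k).neighborFinset x =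
      (Finset.univ.filter (fun y => hadj x.2 y = true)).map
        ⟨fun y => (x.1, y), fun a b h => (Prod.mk.inj h).2⟩ := by
    ext ⟨j, y⟩
    rw [SimpleGraph.mem_neighborFinset, kH_adj, Finset.mem_map]
    constructor
    · rintro ⟨h1, h2⟩
      exact ⟨y, Finset.mem_filter.2 ⟨Finset.mem_univ _, h2⟩, Prod.ext h1 rfl⟩
    · rintro ⟨z, hz, he⟩
      obtain ⟨h1, h2⟩ := Prod.mk.inj he
      rw [← h2]
      exact ⟨h1, (Finset.mem_filter.1 hz).2⟩
  rw [this, Finset.card_map, deg4]

theorem deltaStar_eq {k : ℕ} (hk : 2 ≤ k) : deltaStar (kH k)ᶜ = 4 := by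
  classical
  have : Nonempty (Fin k × (Bool × Fin 7)) := ⟨(⟨0, by omega⟩, (false, 0))⟩
  unfold deltaStar
  have h1 : ∀ (G : SimpleGraph (Fin k × (Bool × Fin 7))) (_ : DecidableRel G.Adj), G = kH k →
      G.minDegree = 4 := by
    rintro G _ rfl
    obtain ⟨v, hv⟩ := (kH k).exists_minimal_degree_vertex
    rw [hv]
    exact kH_degree k v
  have h2 : ∀ (G : SimpleGraph (Fin k × (Bool × Fin 7))) (_ : DecidableRel G.Adj), G = (kH k)ᶜ →
      4 ≤ G.minDegree := by
    rintro G _ rfl
    refine SimpleGraph.le_minDegree_of_forall_le_degree _ _ fun v => ?_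
    have h3 : (kH k)ᶜ.degree v = Fintype.card (Fin k × (Bool × Fin 7)) - 1 - (kH k).degree v := by
      rw [← SimpleGraph.degree_compl]
    rw [h3, kH_degree]
    simp
    omega
  apply le_antisymm
  · refine (min_le_right _ _).trans ?_
    apply le_of_eq
    apply h1
    exact compl_compl _
  · apply le_min
    · apply h2
      rfl
    · apply ge_of_eq
      apply h1
      exact compl_compl _

theorem connected {k : ℕ} (hk : 2 ≤ k) : (kH k)ᶜ.Connected := by
  have : Nonempty (Fin k × (Bool × Fin 7)) := ⟨(⟨0, by omega⟩, (false, 0))⟩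
  have hadj' : ∀ x y : Fin k × (Bool × Fin 7), x.1 ≠ y.1 → (kH k)ᶜ.Adj x y := by
    intro x y h
    rw [SimpleGraph.compl_adj, kH_adj]
    exact ⟨fun he => h (congrArg Prod.fst he), fun he => h he.1⟩
  refine ⟨fun x y => ?_⟩
  by_cases h : x.1 = y.1
  · obtain ⟨j, hj⟩ : ∃ j : Fin k, j ≠ x.1 := by
      by_cases h0 : x.1 = ⟨0, by omega⟩
      · refine ⟨⟨1, by omega⟩, ?_⟩
        rw [h0]
        simp
      · exact ⟨⟨0, by omega⟩, fun h => h0 h.symm⟩
    have h1 := hadj' x (j, (false, 0)) (fun h => hj h.symm)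
    have h2 := hadj' (j, (false, 0)) y (fun h' => hj (h'.trans h.symm))
    exact h1.reachable.trans h2.reachable
  · exact (hadj' x y h).reachable

/-- **Main theorem.** For every `k ≥ 2` there is a connected graph `G` of order `n = 14 k` with
`δ*(G) = 4`, `γ_t(G) = 2` and `γ_t(Gᶜ) = 3n/7`; hence the sum is `3n/7 + 2 > 2n/5 + 2` and the
product is `6n/7 > 4n/5`. -/
theorem result : ∀ k : ℕ, 2 ≤ k → ∃ (V : Type) (_ : Fintype V) (G : SimpleGraph V),
    Fintype.card V = 14 * k ∧ G.Connected ∧ deltaStar G = 4 ∧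
    (totalDom G + totalDom Gᶜ : ℚ) = 3 * (Fintype.card V : ℚ) / 7 + 2 ∧
    (2 * (Fintype.card V : ℚ) / 5 + 2 < totalDom G + totalDom Gᶜ) ∧
    (totalDom G * totalDom Gᶜ : ℚ) = 6 * (Fintype.card V : ℚ) / 7 ∧
    (4 * (Fintype.card V : ℚ) / 5 < totalDom G * totalDom Gᶜ) := by
  intro k hk
  have hcard : Fintype.card (Fin k × (Bool × Fin 7)) = 14 * k := by
    simp
    omega
  have hk' : (2 : ℚ) ≤ k := by exact_mod_cast hk
  refine ⟨Fin k × (Bool × Fin 7), inferInstance, (kH k)ᶜ, hcard, connected hk, deltaStar_eq hk, ?_⟩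
  rw [compl_compl, totalDom_compl hk, totalDom_kH, hcard]
  push_cast
  refine ⟨by ring, by linarith, by ring, by linarith⟩

end Pool.Agent.Results.MP_4101c8_co.ComplementCopies
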